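import Pool.Agent.Helper22.TW.Stmts

/-!
# TW, module DBL: all `x - eᵢ` are squares for a double
-/

set_option autoImplicit false

namespace Pool.Agent.Helper22.TW

theorem dbl_sq {M : Type} [Field M] [CharZero M] (u v w a b x : M) (hb : b ≠ 0)
    (hE : b ^ 2 = (a - u) * (a - v) * (a - w))
    (hx : x = (((a - u) * (a - v) + (a - u) * (a - w) + (a - v) * (a - w)) / (2 * b)) ^ 2
      + (u + v + w) - 2 * a) : IsSquare (x - u) := by
  refine ⟨((a - u) ^ 2 - (u - v) * (u - w)) / (2 * b), ?_⟩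
  have h2 : (2 * b) ≠ 0 := mul_ne_zero two_ne_zero hb
  rw [hx, ← sq, div_pow, div_pow]
  rw [← sub_eq_zero]
  have h4 : (2 * b) ^ 2 ≠ 0 := pow_ne_zero 2 h2
  have e : ((a - u) * (a - v) + (a - u) * (a - w) + (a - v) * (a - w)) ^ 2 / (2 * b) ^ 2
      + (u + v + w) - 2 * a - u - ((a - u) ^ 2 - (u - v) * (u - w)) ^ 2 / (2 * b) ^ 2
      = (((a - u) * (a - v) + (a - u) * (a - w) + (a - v) * (a - w)) ^ 2
        - ((a - u) ^ 2 - (u - v) * (u - w)) ^ 2 + (v + w - 2 * a) * (4 * b ^ 2)) / (2 * b) ^ 2 := by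
    field_simp
    ring
  rw [e, hE]
  have : (((a - u) * (a - v) + (a - u) * (a - w) + (a - v) * (a - w)) ^ 2
        - ((a - u) ^ 2 - (u - v) * (u - w)) ^ 2
        + (v + w - 2 * a) * (4 * ((a - u) * (a - v) * (a - w)))) = 0 := by ring
  rw [this, zero_div]

theorem st_DBL : ST_DBL := by
  intro M _ _ e he x y h Q hQ
  rcases EE.cases he Q with h0 | ⟨a, b, hab, h0⟩
  · rw [h0, add_zero] at hQ
    exact absurd hQ.symm (EE.pt_ne_zero he h)
  · by_cases hb : b = 0
    · subst hb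
      rw [h0, EE.add_self_zero he hab] at hQ
      exact absurd hQ.symm (EE.pt_ne_zero he h)
    · obtain ⟨x3, y3, h3, hadd, hx3, _⟩ := EE.add_self he hab hb
      rw [h0, hadd] at hQ
      have hx : x3 = x := (EE.pt_inj he hQ).1
      rw [hx] at hx3
      have hE : b ^ 2 = (a - e 0) * (a - e 1) * (a - e 2) := hab
      intro i
      fin_cases i
      · exact dbl_sq (e 0) (e 1) (e 2) a b x hb hE hx3
      · refine dbl_sq (e 1) (e 0) (e 2) a b x hb (by rw [hE]; ring) ?_
        rw [hx3]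
        ring
      · refine dbl_sq (e 2) (e 0) (e 1) a b x hb (by rw [hE]; ring) ?_
        rw [hx3]
        ring

end Pool.Agent.Helper22.TW
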