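import Pool.Agent.Helper22.TW.Stmts

/-!
# TW, module HALF: a point with all `x - eᵢ` squares is divisible by `2`
-/

set_option autoImplicit false

namespace Pool.Agent.Helper22.TW

theorem half_core {M : Type} [Field M] [CharZero M] (e : Fin 3 → M) (he : Function.Injective e)
    (x a b c : M) (h0 : x - e 0 = a * a) (h1 : x - e 1 = b * b) (h2 : x - e 2 = c * c)
    (h : Eqn e x (a * b * c)) : ∃ Q : EE e, Q + Q = EE.pt he x (a * b * c) h := by
  have e0 : e 0 = x - a * a := by linear_combination -h0
  have e1 : e 1 = x - b * b := by linear_combination -h1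
  have e2 : e 2 = x - c * c := by linear_combination -h2
  have hab : a + b ≠ 0 := by
    intro hc
    have h3 : e 0 = e 1 := by rw [e0, e1]; linear_combination -(a - b) * hc
    have := he h3
    simp at this
  have hac : a + c ≠ 0 := by
    intro hc
    have h3 : e 0 = e 2 := by rw [e0, e2]; linear_combination -(a - c) * hc
    have := he h3
    simp at this
  have hbc : b + c ≠ 0 := by
    intro hc
    have h3 : e 1 = e 2 := by rw [e1, e2]; linear_combination -(b - c) * hc
    have := he h3
    simp at this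
  have hY : (a + b) * (a + c) * (b + c) ≠ 0 := mul_ne_zero (mul_ne_zero hab hac) hbc
  have hX : Eqn e (x + a * b + a * c + b * c) ((a + b) * (a + c) * (b + c)) := by
    unfold Eqn
    rw [e0, e1, e2]
    ring
  obtain ⟨x3, y3, h3, hadd, hx3, hy3⟩ := EE.add_self he hX hY
  have hs : ((x + a * b + a * c + b * c - e 0) * (x + a * b + a * c + b * c - e 1)
      + (x + a * b + a * c + b * c - e 0) * (x + a * b + a * c + b * c - e 2)
      + (x + a * b + a * c + b * c - e 1) * (x + a * b + a * c + b * c - e 2))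
      / (2 * ((a + b) * (a + c) * (b + c))) = a + b + c := by
    rw [div_eq_iff (mul_ne_zero two_ne_zero hY), e0, e1, e2]
    ring
  rw [hs] at hx3 hy3
  have hx : x3 = x := by
    rw [hx3, e0, e1, e2]
    ring
  have hy : y3 = a * b * c := by
    rw [hy3, hx]
    ring
  exact ⟨EE.pt he _ _ hX, hadd.trans (EE.pt_congr he hx hy)⟩

theorem st_HALF : ST_HALF := by
  intro M _ _ e he x y h hsq
  obtain ⟨a, ha⟩ := hsq 0
  obtain ⟨b, hb⟩ := hsq 1
  obtain ⟨c, hc⟩ := hsq 2
  have hy : y ^ 2 = (a * b * c) ^ 2 := by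
    have h1 : y ^ 2 = (x - e 0) * (x - e 1) * (x - e 2) := h
    rw [h1, ha, hb, hc]
    ring
  have h' : Eqn e x (a * b * c) := by
    unfold Eqn
    rw [← hy]
    exact h
  obtain ⟨Q, hQ⟩ := half_core e he x a b c ha hb hc h'
  rcases sq_eq_sq_iff_eq_or_eq_neg.1 hy with h2 | h2
  · exact ⟨Q, hQ.trans (EE.pt_congr he rfl h2.symm)⟩
  · refine ⟨-Q, ?_⟩
    have h3 : -Q + -Q = -(Q + Q) := by abel
    rw [h3, hQ, EE.neg_pt he h']
    exact EE.pt_congr he rfl h2.symm

end Pool.Agent.Helper22.TW
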